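import Pool.Agent.J4H58.SB.Bas
import Pool.Agent.R972.OP.La

/-!
# Project KB of helper58: (LATB), the lattice inequality (helper42, after `R928.OPLat`)
-/

set_option autoImplicit false

namespace Pool.Agent.J4H42.KB

open Pool.Agent.J4H58.SB
open Pool.Agent.R972.OP (WC S_LA la)

lemma mv2 {n N : ℕ} {k : ℕ} (hk : k ∈ Finset.range N) (g : Fin n → ℕ) :
    mvB N k (k + 1) (mvB N k (k + 1) g) = g := by
  rw [Finset.mem_range] at hk
  exact mvB_mvB (by omega) (by omega) (by omega) g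

open Classical in
/-- the weights -/
noncomputable def w {n : ℕ} (N : ℕ) (R : SL n → SL n → Prop) (c : ℕ → ℝ)
    (x y : {g // g ∈ cfgB N R}) : ℝ :=
  ∑ k ∈ Finset.range N, if mvB N k (k + 1) x.1 = y.1 then c k else 0

lemma w_symm {n : ℕ} (N : ℕ) (R : SL n → SL n → Prop) (c : ℕ → ℝ)
    (x y : {g // g ∈ cfgB N R}) : w N R c x y = w N R c y x := by
  unfold w
  refine Finset.sum_congr rfl fun k hk => ?_
  have : mvB N k (k + 1) x.1 = y.1 ↔ mvB N k (k + 1) y.1 = x.1 := by
    constructor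
    · intro h; rw [← h, mv2 hk]
    · intro h; rw [← h, mv2 hk]
  simp only [this]

open Classical in
lemma sum_w {n : ℕ} (N : ℕ) (R : SL n → SL n → Prop) (c : ℕ → ℝ)
    (x : {g // g ∈ cfgB N R}) (φ : (Fin n → ℕ) → ℝ) :
    ∑ y : {g // g ∈ cfgB N R}, w N R c x y * φ y.1 =
      ∑ k ∈ Finset.range N,
        if mvB N k (k + 1) x.1 ∈ cfgB N R then c k * φ (mvB N k (k + 1) x.1) else 0 := by
  unfold w
  simp_rw [Finset.sum_mul]
  rw [Finset.sum_comm]
  refine Finset.sum_congr rfl fun k _ => ?_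
  split_ifs with h
  · rw [Finset.sum_eq_single ⟨mvB N k (k + 1) x.1, h⟩]
    · simp
    · intro y _ hy
      rw [if_neg, zero_mul]
      intro he
      exact hy (Subtype.ext he.symm)
    · intro hn
      exact absurd (Finset.mem_univ _) hn
  · apply Finset.sum_eq_zero
    intro y _
    rw [if_neg, zero_mul]
    intro he
    rw [he] at h
    exact h y.2

open Classical in
theorem t_LATB : S_CONB → S_CONNB → S_LATB := by
  intro h1 h2 n N R W c m hS hWC F
  have key := la {g // g ∈ cfgB N R} (w N R c) (w_symm N R c) ?_ (fun x => F x.1)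
  · rw [Fintype.card_coe] at key
    have e1 : ∑ x : {g // g ∈ cfgB N R}, F x.1 ^ 2 = ∑ g ∈ cfgB N R, F g ^ 2 :=
      Finset.sum_coe_sort (cfgB N R) (fun g => F g ^ 2)
    have e2 : ∑ x : {g // g ∈ cfgB N R}, F x.1 = ∑ g ∈ cfgB N R, F g :=
      Finset.sum_coe_sort (cfgB N R) F
    have e3 : ∑ x : {g // g ∈ cfgB N R}, ∑ y : {g // g ∈ cfgB N R},
        w N R c x y * (F y.1 - F x.1) ^ 2 = ∑ g ∈ cfgB N R, QQB N R c F g := by
      rw [← Finset.sum_coe_sort (cfgB N R) (fun g => QQB N R c F g)]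
      refine Finset.sum_congr rfl fun x _ => ?_
      rw [sum_w N R c x (fun g => (F g - F x.1) ^ 2)]
      rfl
    rw [e1, e2, e3] at key
    exact key
  · intro lam G hG hne
    set G' : (Fin n → ℕ) → ℝ := fun g => if h : g ∈ cfgB N R then G ⟨g, h⟩ else 0 with hG'
    have hGG : ∀ x : {g // g ∈ cfgB N R}, G' x.1 = G x := by
      intro x
      rw [hG']
      simp
    apply h1 n N R W c m lam G' hS hWC
    · intro g hg
      have e4 := hG ⟨g, hg⟩
      have e5 : ∑ y : {g // g ∈ cfgB N R}, w N R c ⟨g, hg⟩ y * (G y - G ⟨g, hg⟩) =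
          ∑ y : {g // g ∈ cfgB N R}, w N R c ⟨g, hg⟩ y * (G' y.1 - G' g) := by
        refine Finset.sum_congr rfl fun y _ => ?_
        rw [hGG y, hGG ⟨g, hg⟩]
      rw [e5, sum_w N R c ⟨g, hg⟩ (fun h => G' h - G' g), ← hGG ⟨g, hg⟩] at e4
      exact e4
    · by_contra hcon
      push Not at hcon
      obtain ⟨x, y, hxy⟩ := hne
      apply hxy
      rw [← hGG x, ← hGG y]
      exact h2 n N R G' hS (fun g hg k hk hmem => hcon g hg k hk hmem) x.1 x.2 y.1 y.2

end Pool.Agent.J4H42.KB
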